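import Mathlib
import Pool.Agent.H.MP_170125_pr.H

set_option autoImplicit false

namespace Pool.Agent.Results.MP_170125_pr.Positive

open MeasureTheory Pool.Agent.H1701

/-- Q2: for independent positive letters, both growth rates converge almost surely and in
probability to one constant. -/
theorem result (f : FreeGroup (Fin 2) → MvPolynomial (Fin 3) ℤ) (hf : ∀ w, IsTracePoly w (f w))
    (p : ℝ) (hp0 : 0 < p) (hp1 : p < 1)
    (μ : Measure (ℕ → Fin 2 × Bool)) [IsProbabilityMeasure μ]
    (h : ∀ l, cyl μ l = (l.map fun a =>
      if a = (0, true) then p else if a = (1, true) then 1 - p else 0).prod) : Conv f μ := by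
  refine conv hf (good_pos (ρ := max p (1 - p)) (lt_max_of_lt_left hp0)
    (max_lt hp1 (by linarith)) (fun a => ?_) (by simp [Fintype.sum_prod_type]) (fun a ha => ?_) h)
  · split_ifs
    · exact ⟨hp0.le, le_max_left _ _⟩
    · exact ⟨by linarith, le_max_right _ _⟩
    · exact ⟨le_rfl, le_max_of_le_left hp0.le⟩
  · split_ifs at ha with h1 h2
    · rw [h1]
    · rw [h2]
    · exact absurd rfl ha

end Pool.Agent.Results.MP_170125_pr.Positive
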