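import Mathlib
import Pool.Agent.H.MP_170125_pr.H

set_option autoImplicit false

namespace Pool.Agent.Results.MP_170125_pr.Reduced

open MeasureTheory Pool.Agent.H1701

/-- Q1: for the uniform infinite reduced word, both growth rates converge almost surely and in
probability to one constant. -/
theorem result (f : FreeGroup (Fin 2) → MvPolynomial (Fin 3) ℤ) (hf : ∀ w, IsTracePoly w (f w))
    (μ : Measure (ℕ → Fin 2 × Bool)) [IsProbabilityMeasure μ]
    (h1 : ∀ l, l ≠ [] → FreeGroup.IsReduced l → cyl μ l = 1 / 4 * (1 / 3) ^ (l.length - 1))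
    (h2 : ∀ l, ¬FreeGroup.IsReduced l → cyl μ l = 0) : Conv f μ :=
  conv hf (good_red h1 h2)

end Pool.Agent.Results.MP_170125_pr.Reduced
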